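import Mathlib

open Metric Set Filter Topology

namespace Pool.Agent.Results.MP_6331ea_an.Cex

universe u

/-- Spectral permanence: spectra do not change in any commutative Banach algebra `B` containing
`A` as a closed unital subalgebra. -/
def SpectralPermanence (A : Type) [NormedCommRing A] [NormedAlgebra ℂ A] : Prop :=
  ∀ (B : Type u) [NormedCommRing B] [NormedAlgebra ℂ B] [CompleteSpace B] (ι : A →ₐ[ℂ] B),
    IsClosedEmbedding ι → ∀ x : A, spectrum ℂ (ι x) = spectrum ℂ x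

abbrev D := closedBall (0:ℂ) 1
abbrev X := unitInterval × D
abbrev K := unitInterval × sphere (0:ℂ) 1

open Classical in
noncomputable def ext (f : C(X, ℂ)) (t : unitInterval) (z : ℂ) : ℂ :=
  if h : z ∈ closedBall (0:ℂ) 1 then f (t, ⟨z, h⟩) else 0

lemma ext_eq (f : C(X, ℂ)) (t : unitInterval) (z : D) : ext f t z = f (t, z) := by
  unfold ext; rw [dif_pos z.2]

lemma ext_of (f : C(X, ℂ)) (t : unitInterval) (g : ℂ → ℂ) (h : ∀ z : D, f (t, z) = g z)
    (hg : DifferentiableOn ℂ g (ball 0 1)) : DifferentiableOn ℂ (ext f t) (ball 0 1) :=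
  hg.congr fun z hz => by
    rw [← h ⟨z, ball_subset_closedBall hz⟩]; exact ext_eq f t ⟨z, ball_subset_closedBall hz⟩

def o : D := ⟨0, by simp⟩

def Alg : Subalgebra ℂ C(X, ℂ) where
  carrier := {f | (∀ t, DifferentiableOn ℂ (ext f t) (ball 0 1)) ∧ ∀ z, f (0, z) = f (0, o)}
  mul_mem' := fun {a b} ha hb => ⟨fun t => ext_of _ t (fun z => ext a t z * ext b t z)
    (fun z => by simp [ext_eq]) ((ha.1 t).mul (hb.1 t)), fun z => by simp [ha.2 z, hb.2 z]⟩
  add_mem' := fun {a b} ha hb => ⟨fun t => ext_of _ t (fun z => ext a t z + ext b t z)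
    (fun z => by simp [ext_eq]) ((ha.1 t).add (hb.1 t)), fun z => by simp [ha.2 z, hb.2 z]⟩
  algebraMap_mem' := fun c => ⟨fun t => ext_of _ t (fun _ => c) (fun z => by simp)
    (differentiableOn_const c), fun z => by simp⟩

lemma Alg_closed : IsClosed (Alg : Set C(X, ℂ)) := by
  refine isSeqClosed_iff_isClosed.mp fun F f hF hf => ⟨fun t => ?_, fun z => ?_⟩
  · have hu : TendstoUniformlyOn (fun n => ext (F n) t) (ext f t) atTop (ball 0 1) := by
      rw [Metric.tendstoUniformlyOn_iff]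
      intro ε hε
      filter_upwards [(Metric.tendsto_nhds.mp hf) ε hε] with n hn z hz
      have h1 := ext_eq f t ⟨z, ball_subset_closedBall hz⟩
      have h2 := ext_eq (F n) t ⟨z, ball_subset_closedBall hz⟩
      simp only at h1 h2
      rw [h1, h2, dist_comm]
      exact (ContinuousMap.dist_apply_le_dist _).trans_lt hn
    exact hu.tendstoLocallyUniformlyOn.differentiableOn
      (Eventually.of_forall fun n => (hF n).1 t) isOpen_ball
  · have h1 := ((continuous_eval_const (0, z)).tendsto f).comp hf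
    have h2 := ((continuous_eval_const (0, o)).tendsto f).comp hf
    refine tendsto_nhds_unique h1 (h2.congr fun n => ((hF n).2 z).symm)

instance : CompleteSpace Alg := Alg_closed.completeSpace_coe

lemma dc (f : C(X, ℂ)) (t : unitInterval) (h : DifferentiableOn ℂ (ext f t) (ball 0 1)) :
    DiffContOnCl ℂ (ext f t) (ball 0 1) := by
  refine ⟨h, ?_⟩
  rw [closure_ball _ one_ne_zero, continuousOn_iff_continuous_domRestrict]
  have : (closedBall (0:ℂ) 1).domRestrict (ext f t) = fun z : D => f (t, z) := by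
    ext z; exact ext_eq f t z
  rw [this]; fun_prop

lemma maxp (f : C(X, ℂ)) (t : unitInterval) (h : DifferentiableOn ℂ (ext f t) (ball 0 1)) (C : ℝ)
    (hC : ∀ z : D, ‖(z : ℂ)‖ = 1 → ‖f (t, z)‖ ≤ C) (z : D) : ‖f (t, z)‖ ≤ C := by
  rw [← ext_eq]
  refine Complex.norm_le_of_forall_mem_frontier_norm_le isBounded_ball (dc f t h) ?_ ?_
  · intro w hw
    rw [frontier_ball _ one_ne_zero] at hw
    have := ext_eq f t ⟨w, sphere_subset_closedBall hw⟩
    simp only at this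
    rw [this]
    exact hC _ (by simpa using hw)
  · rw [closure_ball _ one_ne_zero]; exact z.2

/-- minimum principle on a slice without zeros -/
lemma minp (f : C(X, ℂ)) (t : unitInterval) (h : DifferentiableOn ℂ (ext f t) (ball 0 1)) (δ : ℝ)
    (hδ : 0 < δ) (h0 : ∀ z : D, f (t, z) ≠ 0)
    (hC : ∀ z : D, ‖(z : ℂ)‖ = 1 → δ ≤ ‖f (t, z)‖) (z : D) : δ ≤ ‖f (t, z)‖ := by
  let g : C(X, ℂ) := ⟨fun p => (f (t, p.2))⁻¹, (by fun_prop : Continuous fun p : X => f (t, p.2)).inv₀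
    fun p => h0 p.2⟩
  have hg : DifferentiableOn ℂ (ext g t) (ball 0 1) :=
    ext_of g t (fun z => (ext f t z)⁻¹) (fun z => by simp [g, ext_eq]) (h.inv fun z hz => by
      have := ext_eq f t ⟨z, ball_subset_closedBall hz⟩
      simp only at this
      rw [this]; exact h0 _)
  have := maxp g t hg δ⁻¹ (fun w hw => by
    show ‖(f (t, w))⁻¹‖ ≤ δ⁻¹
    rw [norm_inv]; exact inv_anti₀ hδ (hC w hw)) z
  have h2 : ‖(f (t, z))⁻¹‖ ≤ δ⁻¹ := this
  rw [norm_inv] at h2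
  exact (inv_le_inv₀ (norm_pos_iff.mpr (h0 z)) hδ).mp h2

lemma nozero (f : C(X, ℂ)) (hf : f ∈ Alg) (h : ∀ t (z : D), ‖(z : ℂ)‖ = 1 → f (t, z) ≠ 0) :
    ∀ p, f p ≠ 0 := by
  obtain ⟨δ, hδ, hb⟩ : ∃ δ > 0, ∀ t (z : D), ‖(z : ℂ)‖ = 1 → δ ≤ ‖f (t, z)‖ := by
    have hc : IsCompact {p : X | ‖(p.2 : ℂ)‖ = 1} :=
      (isClosed_eq (by fun_prop) continuous_const).isCompact
    obtain ⟨p, hp, hm⟩ := hc.exists_isMinOn (f := fun p => ‖f p‖)
      ⟨(0, ⟨1, by simp⟩), by simp⟩ (by fun_prop)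
    exact ⟨‖f p‖, norm_pos_iff.mpr (h p.1 p.2 hp), fun t z hz => hm (show (t, z) ∈ _ from hz)⟩
  let T : Set unitInterval := Prod.fst '' {p : X | ‖f p‖ ≤ δ / 2}
  have hT : T = Prod.fst '' {p : X | ‖f p‖ < δ} := by
    refine Subset.antisymm (image_mono fun p (hp : ‖f p‖ ≤ δ / 2) => show ‖f p‖ < δ by linarith) ?_
    rintro _ ⟨p, hp, rfl⟩
    by_contra hn
    refine absurd (minp f p.1 (hf.1 _) δ hδ (fun z hz => hn ⟨(p.1, z), ?_, rfl⟩) (hb _) p.2)
      (not_le.mpr hp)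
    show ‖f (p.1, z)‖ ≤ δ / 2
    rw [hz, norm_zero]; linarith
  have h1 : IsClosed T :=
    (((isClosed_le (by fun_prop) continuous_const).isCompact).image continuous_fst).isClosed
  have h2 : IsOpen T := by
    rw [hT]; exact isOpenMap_fst _ (isOpen_lt (by fun_prop) continuous_const)
  rcases isClopen_iff.mp ⟨h1, h2⟩ with h3 | h3
  · intro p hp
    have : p.1 ∈ T := ⟨p, show ‖f p‖ ≤ δ / 2 by rw [hp, norm_zero]; linarith, rfl⟩
    rw [h3] at this; exact this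
  · exfalso
    have : (0 : unitInterval) ∈ T := by rw [h3]; trivial
    obtain ⟨⟨t, z⟩, hp, rfl⟩ := this
    have h4 := hb 0 ⟨1, by simp⟩ (by simp)
    have h5 : ‖f (0, z)‖ ≤ δ / 2 := hp
    rw [hf.2] at h4 h5
    linarith

lemma unit_of (f : Alg) (h : ∀ p, (f : C(X, ℂ)) p ≠ 0) : IsUnit f := by
  let g : C(X, ℂ) := ⟨fun p => (f.1 p)⁻¹, f.1.continuous.inv₀ h⟩
  have hg : g ∈ Alg := ⟨fun t => ext_of g t (fun z => (ext f.1 t z)⁻¹)
    (fun z => by simp [g, ext_eq]) ((f.2.1 t).inv fun z hz => by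
      have := ext_eq f.1 t ⟨z, ball_subset_closedBall hz⟩
      simp only at this
      rw [this]; exact h _), fun z => by simp [g, f.2.2 z]⟩
  refine IsUnit.of_mul_eq_one ⟨g, hg⟩ (Subtype.ext (ContinuousMap.ext fun p => ?_))
  exact mul_inv_cancel₀ (h p)

lemma peak_tendsto (f y : C(X, ℂ)) (h1 : ∀ p, ‖y p‖ ≤ 1) (h2 : ∀ p, ‖y p‖ = 1 → f p = 0) :
    Tendsto (fun n => f * y ^ n) atTop (𝓝 0) := by
  rw [Metric.tendsto_nhds]
  intro ε hε
  obtain ⟨r, hr0, hr1, hr⟩ : ∃ r : ℝ, 0 ≤ r ∧ r < 1 ∧ ∀ p, ε / 2 ≤ ‖f p‖ → ‖y p‖ ≤ r := by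
    have hc : IsCompact {p : X | ε / 2 ≤ ‖f p‖} :=
      (isClosed_le continuous_const (by fun_prop)).isCompact
    rcases {p : X | ε / 2 ≤ ‖f p‖}.eq_empty_or_nonempty with h | h
    · exact ⟨0, le_rfl, one_pos, fun p hp => absurd (show p ∈ {p : X | ε / 2 ≤ ‖f p‖} from hp)
        (by rw [h]; exact id)⟩
    · obtain ⟨p, hp, hm⟩ := hc.exists_isMaxOn (f := fun p => ‖y p‖) h (by fun_prop)
      refine ⟨‖y p‖, norm_nonneg _, lt_of_le_of_ne (h1 p) fun h => ?_, fun q hq => hm hq⟩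
      have h3 : ε / 2 ≤ ‖f p‖ := hp
      rw [h2 p h, norm_zero] at h3; linarith
  have ht := (tendsto_pow_atTop_nhds_zero_of_lt_one hr0 hr1).const_mul ‖f‖
  rw [mul_zero] at ht
  filter_upwards [ht.eventually (gt_mem_nhds (half_pos hε))] with n hn
  rw [dist_zero_right]
  refine lt_of_le_of_lt ((ContinuousMap.norm_le _ (half_pos hε).le).mpr fun p => ?_) (half_lt_self hε)
  rw [ContinuousMap.mul_apply, ContinuousMap.pow_apply, norm_mul, norm_pow]
  rcases le_total (ε / 2) ‖f p‖ with h | h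
  · exact le_trans (mul_le_mul (f.norm_coe_le_norm p) (pow_le_pow_left₀ (norm_nonneg _) (hr p h) n)
      (by positivity) (norm_nonneg _)) hn.le
  · exact (mul_le_of_le_one_right (norm_nonneg _) (pow_le_one₀ (norm_nonneg _) (h1 p))).trans h

lemma peak (f : C(X, ℂ)) (hf : f ∈ Alg) (t₀ : unitInterval) (z₀ : D) (hz : ‖(z₀ : ℂ)‖ = 1)
    (h0 : f (t₀, z₀) = 0) : ∃ y ∈ Alg, y (t₀, z₀) = 1 ∧ (∀ p, ‖y p‖ ≤ 1) ∧
      ∀ p, ‖y p‖ = 1 → f p = 0 := by
  have ht0 : (0:ℝ) ≤ t₀ := t₀.2.1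
  have hz2 : (starRingEnd ℂ) z₀ * (z₀ : ℂ) = 1 := by
    rw [Complex.conj_mul', hz]; simp
  let y : C(X, ℂ) := ⟨fun p => (((1 - |(p.1 : ℝ) - t₀|) / (1 + t₀) : ℝ) : ℂ) *
    (1 + ((min (p.1 : ℝ) t₀ : ℝ) : ℂ) * ((starRingEnd ℂ) z₀ * p.2)), by fun_prop⟩
  have hy : ∀ p : X, y p = (((1 - |(p.1 : ℝ) - t₀|) / (1 + t₀) : ℝ) : ℂ) *
    (1 + ((min (p.1 : ℝ) t₀ : ℝ) : ℂ) * ((starRingEnd ℂ) z₀ * p.2)) := fun p => rfl
  have ha : ∀ p : X, 0 ≤ 1 - |(p.1 : ℝ) - t₀| := fun p => by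
    have := p.1.2.1; have := p.1.2.2; have := t₀.2.2
    rw [sub_nonneg, abs_le]; constructor <;> linarith
  have hn : ∀ p : X, ‖y p‖ * (1 + t₀) = (1 - |(p.1 : ℝ) - t₀|) *
      ‖1 + ((min (p.1 : ℝ) t₀ : ℝ) : ℂ) * ((starRingEnd ℂ) z₀ * p.2)‖ := fun p => by
    rw [hy, norm_mul, Complex.norm_real, Real.norm_of_nonneg (div_nonneg (ha p) (by linarith))]
    field_simp
  have hw : ∀ p : X, ‖(starRingEnd ℂ) z₀ * (p.2 : ℂ)‖ ≤ 1 := fun p => by
    rw [norm_mul, Complex.norm_conj, hz, one_mul]; exact mem_closedBall_zero_iff.mp p.2.2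
  have hm : ∀ p : X, ‖1 + ((min (p.1 : ℝ) t₀ : ℝ) : ℂ) * ((starRingEnd ℂ) z₀ * p.2)‖ ≤ 1 + t₀ := by
    intro p
    refine (norm_add_le _ _).trans ?_
    rw [norm_one, norm_mul, Complex.norm_real, Real.norm_of_nonneg (le_min p.1.2.1 ht0)]
    have := mul_le_mul (min_le_right (p.1 : ℝ) t₀) (hw p) (norm_nonneg _) ht0
    linarith
  refine ⟨y, ⟨fun t => ext_of y t (fun z => (((1 - |(t : ℝ) - t₀|) / (1 + t₀) : ℝ) : ℂ) *
    (1 + ((min (t : ℝ) t₀ : ℝ) : ℂ) * ((starRingEnd ℂ) z₀ * z))) (fun z => rfl) (by fun_prop),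
    fun z => by simp [hy, ht0]⟩, ?_, fun p => ?_, fun p hp => ?_⟩
  · rw [hy]
    simp only [sub_self, abs_zero, sub_zero, min_self, hz2, mul_one]
    push_cast
    have : (1 : ℂ) + ((t₀ : ℝ) : ℂ) ≠ 0 := by
      have : (0:ℝ) < 1 + t₀ := by linarith
      exact_mod_cast this.ne'
    field_simp
  · have h1 := hn p
    have h2 := mul_le_mul (show 1 - |(p.1 : ℝ) - t₀| ≤ 1 by linarith [abs_nonneg ((p.1 : ℝ) - t₀)])
      (hm p) (norm_nonneg _) zero_le_one
    exact le_of_mul_le_mul_right (h1.le.trans h2) (by linarith)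
  · have h1 := hn p
    rw [hp, one_mul] at h1
    have h2 := hm p
    have h3 : |(p.1 : ℝ) - t₀| = 0 := by
      have := abs_nonneg ((p.1 : ℝ) - t₀)
      have := mul_le_mul_of_nonneg_left h2 (ha p)
      nlinarith
    have h4 : p.1 = t₀ := Subtype.ext (by linarith [abs_eq_zero.mp h3])
    rw [h3, h4, min_self, sub_zero, one_mul] at h1
    obtain ⟨t, z⟩ := p
    simp only at h4 h1
    subst h4
    rcases eq_or_lt_of_le ht0 with h5 | h5
    · have : t = 0 := Subtype.ext h5.symm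
      subst this
      rw [hf.2, ← hf.2 z₀, h0]
    · have h6 := hw (t, z)
      simp only at h6
      generalize hw' : (starRingEnd ℂ) z₀ * (z : ℂ) = w at h1 h6
      have h7 : w = 1 := by
        have e1 := congrArg (· ^ 2) h1
        simp only [Complex.sq_norm, Complex.normSq_apply, Complex.add_re, Complex.add_im,
          Complex.one_re, Complex.one_im, Complex.re_ofReal_mul, Complex.im_ofReal_mul] at e1
        have e2 : w.re * w.re + w.im * w.im ≤ 1 := by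
          have := pow_le_one₀ (n := 2) (norm_nonneg w) h6
          rwa [Complex.sq_norm, Complex.normSq_apply] at this
        have e3 : 1 ≤ w.re := by
          by_contra hc
          push Not at hc
          nlinarith [mul_pos h5 h5, mul_pos h5 (sub_pos.mpr hc)]
        apply Complex.ext
        · simp; nlinarith
        · simp; nlinarith
      have : z = z₀ := Subtype.ext (by
        have : (z₀ : ℂ) * ((starRingEnd ℂ) z₀ * (z : ℂ)) = z₀ := by rw [hw', h7, mul_one]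
        rw [← mul_assoc, mul_comm (z₀ : ℂ), hz2, one_mul] at this
        exact this)
      rw [this, h0]

lemma perm : SpectralPermanence.{u} Alg := by
  intro B _ _ _ ι hι x
  have key : ∀ f : Alg, IsUnit (ι f) → IsUnit f := by
    intro f hu
    refine unit_of f (nozero f.1 f.2 fun t z hz h0 => ?_)
    obtain ⟨y, hy, y1, y2, y3⟩ := peak f.1 f.2 t z hz h0
    have h1 : Tendsto (fun n => f * (⟨y, hy⟩ : Alg) ^ n) atTop (𝓝 0) :=
      tendsto_subtype_rng.mpr (peak_tendsto f.1 y y2 y3)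
    have h2 := ((hι.continuous.tendsto 0).comp h1).const_mul ((hu.unit⁻¹ : Bˣ) : B)
    have h3 : Tendsto (ι ∘ fun n => (⟨y, hy⟩ : Alg) ^ n) atTop (𝓝 (ι 0)) := by
      rw [map_zero, mul_zero] at *
      refine h2.congr fun n => ?_
      simp only [Function.comp, map_mul]
      rw [← mul_assoc, IsUnit.val_inv_mul, one_mul]
    have h4 := tendsto_subtype_rng.mp (hι.isEmbedding.tendsto_nhds_iff.mpr h3)
    have h5 := ((continuous_eval_const (t, z)).tendsto _).comp h4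
    have h6 : Tendsto (fun _ : ℕ => (1:ℂ)) atTop (𝓝 0) := h5.congr fun n => by simp [y1]
    exact one_ne_zero (tendsto_nhds_unique tendsto_const_nhds h6)
  ext c
  rw [spectrum.mem_iff, spectrum.mem_iff, ← ι.commutes, ← map_sub]
  exact not_congr ⟨key _, fun h => h.map ι⟩

def inc : C(K, X) := ⟨fun p => (p.1, ⟨p.2, sphere_subset_closedBall p.2.2⟩), by fun_prop⟩

noncomputable def res : Alg →ₐ[ℂ] C(K, ℂ) :=
  (ContinuousMap.compRightAlgHom ℂ ℂ inc).comp Alg.val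

lemma res_iso : Isometry res := by
  refine AddMonoidHomClass.isometry_of_norm res fun f => le_antisymm ?_ ?_
  · exact (ContinuousMap.norm_le _ (norm_nonneg _)).mpr fun p => f.1.norm_coe_le_norm _
  · refine (ContinuousMap.norm_le f.1 (norm_nonneg _)).mpr fun p => ?_
    exact maxp f.1 p.1 (f.2.1 _) _ (fun z hz =>
      (res f).norm_coe_le_norm (p.1, ⟨z, by simpa using hz⟩)) p.2

noncomputable def phi : Alg →ₐ[ℂ] ℂ := (ContinuousMap.evalAlgHom ℂ ℂ ((1, o) : X)).comp Alg.val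

theorem result : ∃ (A : Type) (_ : NormedCommRing A) (_ : NormedAlgebra ℂ A) (_ : CompleteSpace A),
    SpectralPermanence.{u} A ∧ ∃ (φ : A →ₐ[ℂ] ℂ) (B : Type) (_ : NormedCommRing B)
      (_ : NormedAlgebra ℂ B) (_ : CompleteSpace B) (ι : A →ₐ[ℂ] B), Isometry ι ∧
      ¬ ∃ ψ : B →ₙₐ[ℂ] ℂ, ∀ a, ψ (ι a) = φ a := by
  refine ⟨Alg, inferInstance, inferInstance, inferInstance, perm, phi, C(K, ℂ), inferInstance,
    inferInstance, inferInstance, res, res_iso, ?_⟩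
  rintro ⟨ψ, hψ⟩
  let a : C(X, ℂ) := ⟨fun p => ((p.1 : ℝ) : ℂ) * p.2, by fun_prop⟩
  let b : C(X, ℂ) := ⟨fun p => 1 - ((p.1 : ℝ) : ℂ), by fun_prop⟩
  have ha : a ∈ Alg := ⟨fun t => ext_of a t (fun z => ((t : ℝ) : ℂ) * z) (fun z => rfl)
    (by fun_prop), fun z => by simp [a]⟩
  have hb : b ∈ Alg := ⟨fun t => ext_of b t (fun _ => 1 - ((t : ℝ) : ℂ)) (fun z => rfl)
    (by fun_prop), fun z => by simp [b]⟩
  let c : C(K, ℂ) := ⟨fun p => (starRingEnd ℂ) p.2, by fun_prop⟩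
  have h1 : res ⟨a, ha⟩ * c + res ⟨b, hb⟩ = 1 := by
    ext p
    have hz : ((p.2 : ℂ)) * (starRingEnd ℂ) p.2 = 1 := by
      rw [Complex.mul_conj', show ‖(p.2 : ℂ)‖ = 1 from mem_sphere_zero_iff_norm.mp p.2.2]; simp
    show ((p.1 : ℝ) : ℂ) * p.2 * (starRingEnd ℂ) p.2 + (1 - ((p.1 : ℝ) : ℂ)) = 1
    rw [mul_assoc, hz]; ring
  have h2 := congrArg ψ h1
  rw [map_add, map_mul, hψ, hψ, ← map_one res, hψ, map_one] at h2
  have e1 : phi ⟨a, ha⟩ = 0 := by
    show (((1 : unitInterval) : ℝ) : ℂ) * (0 : ℂ) = 0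
    simp
  have e2 : phi ⟨b, hb⟩ = 0 := by
    show 1 - (((1 : unitInterval) : ℝ) : ℂ) = 0
    simp
  rw [e1, e2] at h2
  simp at h2

end Pool.Agent.Results.MP_6331ea_an.Cex
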